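import Pool.Agent.N639.FI.Six
import Pool.Agent.N639.FH.FinQ
import Pool.Agent.H429R2.Auto

/-!
# Project FI: the rows of the automaton and the digits of `m 9 ^ n`
-/

set_option autoImplicit false

namespace Pool.Agent.N639.FI

open Finset Real Filter Topology
open Pool.Agent.N639.FH (wo)
open Pool.Agent.H429R2.Auto (Conf F IsFin Rep rep_iter digits_sum sum_lt eq_of_digits exists_rep)

/-- the word at the cells `i, …, i + l - 1` of `x`, read as a number in base six -/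
def rw6 (x : Conf) (l : ℕ) (i : ℤ) : ℕ :=
  ∑ r ∈ range l, ((x (i + ((l - 1 - r : ℕ) : ℤ)) : Fin 6) : ℕ) * 6 ^ r

lemma rw6_lt (x : Conf) (l : ℕ) (i : ℤ) : rw6 x l i < 6 ^ l := sum_lt l _

lemma row_digit {x : Conf} {m k : ℕ} (hx : Rep x ((m : ℝ) / 6 ^ k)) (n : ℕ) (i : ℤ)
    (p : ℕ) (hp : i + p = n + k) : ((F^[n] x i : Fin 6) : ℕ) = m * 9 ^ n / 6 ^ p % 6 := by
  have h := rep_iter (by positivity) hx n i
  rw [h]
  have e : (6 : ℝ) ^ i * ((3 / 2) ^ n * ((m : ℝ) / 6 ^ k)) =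
      ((m * 9 ^ n : ℕ) : ℝ) / ((6 ^ p : ℕ) : ℝ) := by
    have h1 : i = (n : ℤ) + k - p := by omega
    rw [h1, zpow_sub₀ (by norm_num), zpow_add₀ (by norm_num), zpow_natCast, zpow_natCast,
      zpow_natCast]
    have h9 : (9 : ℝ) ^ n = 6 ^ n * (3 / 2) ^ n := by rw [← mul_pow]; norm_num
    push_cast
    rw [h9]
    field_simp
  rw [e, Nat.floor_div_eq_div]

/-- the words of the rows -/
lemma rw6_eq {x : Conf} {m k : ℕ} (hx : Rep x ((m : ℝ) / 6 ^ k)) (n l : ℕ) (i : ℤ)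
    (p : ℕ) (hp : i + p = n + k) (hl : l ≤ p + 1) :
    rw6 (F^[n] x) l i = wo 6 l p (m * 9 ^ n) := by
  apply eq_of_digits l _ _ (rw6_lt _ _ _) (Nat.mod_lt _ (by positivity))
  intro r hr
  unfold rw6
  rw [digits_sum l (fun r => F^[n] x (i + ((l - 1 - r : ℕ) : ℤ))) r hr]
  rw [row_digit hx n _ (p + 1 - l + r) (by omega)]
  have h1 : (6 : ℕ) ^ l = 6 ^ r * 6 ^ (l - r) := by
    rw [← pow_add]
    congr 1
    omega
  rw [h1, Nat.mod_mul_right_div_self, Nat.mod_mod_of_dvd _ (dvd_pow_self 6 (by omega)),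
    Nat.div_div_eq_div_mul, ← pow_add]

/-- the power of two -/
lemma not_dvd_num {m : ℕ} (hm : 0 < m) (n : ℕ) : ¬ 2 ^ (m + 1) ∣ m * 9 ^ n := by
  intro h
  have h1 : Nat.Coprime (2 ^ (m + 1)) (9 ^ n) := Nat.Coprime.pow _ _ (by norm_num)
  have h2 := Nat.le_of_dvd hm (h1.dvd_of_dvd_mul_right h)
  have h3 : m + 1 < 2 ^ (m + 1) := Nat.lt_two_pow_self
  omega

/-- the family of the rows at the times `n₀ ≤ n < n₀ + M` -/
lemma mem_S6 {m k : ℕ} (hm : 0 < m) {δ A : ℝ} (hA : 0 < A) : ∀ᶠ M : ℕ in atTop,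
    ∀ n₀ lo hi : ℕ, A * log M ≤ n₀ → δ * log M ≤ lo → (hi : ℝ) ≤ A * log M + k + 1 → lo ≤ hi →
      (hi : ℝ) ≤ (A + 1) * log M ∧
      Pool.Agent.Y933.KE.smear (range M) (fun n' => m * 9 ^ n₀ * 9 ^ n' / 6 ^ lo) 6 (hi - lo) ∈
        S6 m δ (A + 1) M := by
  have hlog : Tendsto (fun M : ℕ => log (M : ℝ)) atTop atTop :=
    Real.tendsto_log_atTop.comp tendsto_natCast_atTop_atTop
  filter_upwards [hlog.eventually_ge_atTop ((k : ℝ) + 1),
    hlog.eventually_ge_atTop (((k : ℝ) + 1) / A)] with M h1 h2 n₀ lo hi h3 h4 h5 h6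
  rw [div_le_iff₀ hA] at h2
  have h7 : (hi : ℝ) ≤ (A + 1) * log M := by linarith
  refine ⟨h7, m * 9 ^ n₀, lo, hi - lo, not_dvd_num hm n₀, ?_, h4, ?_, rfl⟩
  · have h8 : hi ≤ 2 * n₀ := by
      have : (hi : ℝ) ≤ ((2 * n₀ : ℕ) : ℝ) := by
        push_cast
        linarith
      exact_mod_cast this
    have h9 : (9 : ℕ) ^ n₀ = 3 ^ (2 * n₀) := by
      rw [pow_mul]
      norm_num
    have h10 : lo + (hi - lo) = hi := by omega
    rw [h9, h10]
    exact (pow_dvd_pow 3 h8).trans (dvd_mul_left _ _)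
  · rw [Nat.cast_sub h6]
    linarith

/-- the times -/
lemma ico_card (n₀ M : ℕ) (φ : ℕ → Prop) [DecidablePred φ] :
    ((Ico n₀ (n₀ + M)).filter φ).card = ((range M).filter (fun m => φ (n₀ + m))).card := by
  have h : Ico n₀ (n₀ + M) = (range M).image (fun m => n₀ + m) := by
    ext a
    simp only [mem_Ico, mem_image, mem_range]
    constructor
    · intro ha
      exact ⟨a - n₀, by omega, by omega⟩
    · rintro ⟨m, hm, rfl⟩
      omega
  rw [h, filter_image, card_image_of_injective _ (fun a b hab => by simpa using hab)]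

/-- the places of a window of cells -/
lemma window_places {n k : ℕ} {i : ℤ} {T l : ℕ} (hT : 1 ≤ T) (h : i + T + l ≤ n + 1 + k) :
    ∃ t : ℕ, i + (t + T - 1 : ℕ) = n + k ∧ l ≤ t + 1 := by
  refine ⟨((n : ℤ) + k - i - T + 1).toNat, ?_, ?_⟩
  · have : (0 : ℤ) ≤ (n : ℤ) + k - i - T + 1 := by omega
    omega
  · omega

lemma log_big (A : ℝ) : ∀ᶠ M : ℕ in atTop, A ≤ log (M : ℝ) :=
  (Real.tendsto_log_atTop.comp tendsto_natCast_atTop_atTop).eventually_ge_atTop A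

end Pool.Agent.N639.FI
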