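import Pool.Agent.N639.FI.Val
import Pool.Agent.N639.FH.FamP

/-!
# Project FI: the digits in base six of `g 9 ^ n`
-/

set_option autoImplicit false

namespace Pool.Agent.N639.FI

open Finset Real MeasureTheory Pool.Agent.Y933.KD Filter Topology
open Pool.Agent.N639.FS Pool.Agent.N639.FG Pool.Agent.N639.FH
open Pool.Agent.Y933.KE (WE smear meas_map smear_prob wd_smear real_smear measurableSet_WE WE_eq)

/-- the laws of the digits in base six of `g 9 ^ n`, `n < M`, at the places `s, …, s + J - 1` -/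
def S6 (U : ℕ) (δ C : ℝ) (M : ℕ) : Set (Measure ℝ) :=
  {P | ∃ g s J : ℕ, ¬ 2 ^ (U + 1) ∣ g ∧ 3 ^ (s + J) ∣ g ∧ δ * log M ≤ s ∧ (s : ℝ) + J ≤ C * log M ∧
    P = smear (range M) (fun n => g * 9 ^ n / 6 ^ s) 6 J}

lemma S6_prob (U : ℕ) (δ C : ℝ) (M : ℕ) (hM : 1 ≤ M) (P : Measure ℝ) (hP : P ∈ S6 U δ C M) :
    IsProbabilityMeasure P := by
  obtain ⟨l, s, J, _, _, _, _, rfl⟩ := hP
  exact smear_prob ⟨0, mem_range.2 (by omega)⟩ _ _ _

/-- the exponential sums -/
lemma hat_six (U : ℕ) {δ : ℝ} (hδ : 0 < δ) (C : ℝ)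
    (k : ℕ) : ∃ κ : ℝ, 0 < κ ∧ ∃ M0 : ℕ, ∀ M : ℕ, M0 ≤ M → ∀ g s J : ℕ, ¬ 2 ^ (U + 1) ∣ g →
      3 ^ (s + J) ∣ g → δ * log M ≤ s → (s : ℝ) + J ≤ C * log M →
      ∀ (n : Fin k → ℕ) (h : Fin k → ℤ),
      (∀ i, n i ≤ J) → (∀ i, |(h i : ℝ)| ≤ exp (κ * log M)) → ∑ i, h i * (6 : ℤ) ^ n i ≠ 0 →
      ‖hat (unif (range M) (fun m => ((g * 9 ^ m : ℕ) : ℝ) / (6 : ℝ) ^ (s + J)))
        (∑ i, h i * (6 : ℤ) ^ n i)‖ ≤ exp (-(κ * log M)) := by
  have hq : (2 : ℕ).Prime := Nat.prime_two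
  have hpq : ¬ 2 ∣ 9 := by norm_num
  have hlq : 0 < log ((2 : ℕ) : ℝ) := Real.log_pos (by norm_num)
  set lq := log ((2 : ℕ) : ℝ) with hlqd
  have hlq1 : lq ≤ 1 := by
    rw [hlqd]
    have := Real.log_two_lt_d9
    push_cast
    linarith
  obtain ⟨g0, hg0⟩ := Pool.Agent.W301.TD.AA.exists_tower hq (by norm_num : 2 ≤ 9) hpq
  have hg : 1 ≤ (2 ^ 2).totient := Nat.totient_pos.2 (by norm_num)
  set δ1 : ℝ := min (δ * lq / 2) 1 with hδ1
  have hδ10 : 0 < δ1 := lt_min (by positivity) one_pos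
  have hδ11 : δ1 ≤ 1 := min_le_right _ _
  have hδ12 : δ1 ≤ δ * lq / 2 := min_le_left _ _
  set C1 : ℝ := max (C * lq) 0 with hC1
  have hC10 : 0 ≤ C1 := le_max_right _ _
  obtain ⟨η, hη, x0, hsum⟩ := Pool.Agent.W301.TD.AA.expsum hq hpq hg hg0 δ1 C1 hδ10 hδ11 hC10
  obtain ⟨κ0, hκ0', T0, hval⟩ := val_six k (by positivity : 0 < δ / 4)
  set κ : ℝ := min η κ0 with hκ
  have hκ0 : 0 < κ := lt_min hη hκ0'
  have hκ1 : κ ≤ η := min_le_left _ _
  have hκ2 : κ ≤ κ0 := min_le_right _ _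
  have hlog : Tendsto (fun M : ℕ => log (M : ℝ)) atTop atTop :=
    Real.tendsto_log_atTop.comp tendsto_natCast_atTop_atTop
  obtain ⟨M0, hM0⟩ := eventually_atTop.1 ((hlog.eventually_ge_atTop (x0 * lq)).and
    ((hlog.eventually_ge_atTop T0).and
    ((eventually_ge_atTop 1).and ((hlog.eventually_ge_atTop 0).and
      (hlog.eventually_ge_atTop (4 * U / δ))))))
  refine ⟨κ, hκ0, M0, fun M hM g s J hl h3 hs hsJ n h hn hh hne => ?_⟩
  obtain ⟨m1, m2, m3, m4, m5⟩ := hM0 M hM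
  have hMp : (0 : ℝ) < M := by exact_mod_cast m3
  rw [div_le_iff₀ hδ] at m5
  set H : ℤ := ∑ i, h i * (6 : ℤ) ^ n i with hH
  obtain ⟨v, A, hA, hv⟩ := exists_val hq hne
  -- the power of two in `H`
  have h4 : (v : ℝ) ≤ J + δ / 4 * log M := by
    refine hval (log M) m2 n h (fun i => (hh i).trans (exp_le_exp.2
      (mul_le_mul_of_nonneg_right hκ2 m4))) J hn hne v ?_
    rw [← hH, hv]
    exact ⟨A, by push_cast; ring⟩
  -- the power of two in `g`
  obtain ⟨g1, rfl⟩ := h3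
  have hg1 : g1 ≠ 0 := by
    rintro rfl
    apply hl
    simp
  obtain ⟨u, g2, hg2, hg2'⟩ := Nat.exists_eq_two_pow_mul_odd hg1
  have hu : u ≤ U := by
    by_contra hcon
    apply hl
    rw [hg2']
    have h5 : (2 : ℕ) ^ (U + 1) ∣ 2 ^ u := pow_dvd_pow _ (by omega)
    exact (h5.trans (dvd_mul_right _ _)).trans (dvd_mul_left _ _)
  have huR : (u : ℝ) ≤ δ / 4 * log M := by
    have : (u : ℝ) ≤ U := by exact_mod_cast hu
    linarith
  have hvs : v + u ≤ s + J := by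
    have h5 : ((v + u : ℕ) : ℝ) ≤ ((s + J : ℕ) : ℝ) := by
      push_cast
      have : 0 ≤ δ * log M := by positivity
      linarith
    exact_mod_cast h5
  set ι : ℕ := s + J - (v + u) with hι
  have hιR : (ι : ℝ) = s + J - (v + u) := by
    rw [hι, Nat.cast_sub hvs]
    push_cast
    ring
  set x : ℝ := log M / lq with hx
  have hxl : x * lq = log M := by rw [hx]; field_simp
  have hqx : ((2 : ℕ) : ℝ) ^ x = M := by
    rw [Real.rpow_def_of_pos (by norm_num), ← hlqd, mul_comm, hxl, Real.exp_log hMp]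
  have hx0 : 0 ≤ x := by positivity
  have hodd : ¬ ((2 : ℕ) : ℤ) ∣ A * g2 := by
    intro hd
    rcases (Nat.prime_iff_prime_int.1 hq).dvd_or_dvd hd with hd | hd
    · exact hA hd
    · have : 2 ∣ g2 := by exact_mod_cast hd
      rw [← Nat.not_even_iff_odd, even_iff_two_dvd] at hg2
      exact hg2 this
  have key := hsum x (by rw [hx, le_div_iff₀ hlq]; exact m1) M hqx.symm ι (by
      rw [hιR]
      have h6 : δ1 * x ≤ δ * lq / 2 * x := mul_le_mul_of_nonneg_right hδ12 hx0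
      have e1 : δ * lq / 2 * x = δ / 2 * log M := by rw [← hxl]; ring
      have h7 : 0 ≤ δ * log M := by positivity
      linarith) (by
      rw [hιR]
      have h5 : C * lq * x ≤ C1 * x := mul_le_mul_of_nonneg_right (le_max_left _ _) hx0
      have e1 : C * lq * x = C * log M := by rw [← hxl]; ring
      have h7 : (0 : ℝ) ≤ v := Nat.cast_nonneg v
      have h8 : (0 : ℝ) ≤ u := Nat.cast_nonneg u
      linarith) (A * g2) hodd
  have e1 : ∀ m : ℕ, e (((H : ℤ) : ℝ) * (((3 ^ (s + J) * g1 * 9 ^ m : ℕ) : ℝ) /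
      (6 : ℝ) ^ (s + J))) =
      Pool.Agent.Helper602.MK.ee (((A * g2 : ℤ) : ℝ) * ((9 : ℕ) : ℝ) ^ m /
        ((2 : ℕ) : ℝ) ^ ι) := by
    intro m
    rw [e_ee]
    congr 1
    rw [hv, hg2']
    have h5 : (6 : ℝ) ^ (s + J) = 3 ^ (s + J) * (2 ^ ι * 2 ^ (v + u)) := by
      rw [← pow_add, hι, Nat.sub_add_cancel hvs, ← mul_pow]
      norm_num
    rw [h5]
    push_cast
    field_simp
    ring
  unfold hat
  rw [integral_unif]
  simp only [e1]
  rw [norm_mul, norm_div, norm_one, Complex.norm_natCast, card_range, one_div,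
    inv_mul_le_iff₀ hMp]
  refine key.trans ?_
  rw [mul_comm]
  gcongr
  have e2 : ((2 : ℕ) : ℝ) ^ (-(η * x)) = exp (-(η * log M)) := by
    rw [Real.rpow_def_of_pos (by norm_num), ← hlqd, ← hxl]
    congr 1
    ring
  rw [e2]
  apply Real.exp_le_exp.2
  have : κ * log M ≤ η * log M := mul_le_mul_of_nonneg_right hκ1 m4
  linarith

/-- the tests on words of the digits -/
theorem six_words (U : ℕ) {δ : ℝ} (hδ : 0 < δ)
    (C : ℝ) (k : ℕ) : ∃ ρ : ℝ, 0 < ρ ∧ ∃ C' : ℝ, ∃ M0 : ℕ, ∀ M : ℕ, M0 ≤ M → ∀ g s J : ℕ,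
      ¬ 2 ^ (U + 1) ∣ g → 3 ^ (s + J) ∣ g → δ * log M ≤ s → (s : ℝ) + J ≤ C * log M →
      ∀ n w c : Fin k → ℕ, (∀ i, n i + w i ≤ J) →
      |(((range M).filter (fun m => ∀ r, g * 9 ^ m / 6 ^ s / 6 ^ (J - (n r + w r)) % 6 ^ (w r) =
        c r)).card : ℝ) / (range M).card - Leb.real (WE 6 n w c)| ≤ C' * (M : ℝ) ^ (-ρ) := by
  obtain ⟨κ, hκ, M0, hM0⟩ := hat_six U hδ C k
  refine ⟨κ / (3 * k + 4), by positivity, 3 ^ k + k * 29, max M0 1,
    fun M hM g s J hl h3 hs hsJ n w c hn => ?_⟩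
  have hM1 : 1 ≤ M := le_of_max_le_right hM
  have hMp : (0 : ℝ) < M := by exact_mod_cast hM1
  have hlM : 0 ≤ log (M : ℝ) := Real.log_natCast_nonneg M
  have hpos : (0 : ℝ) ≤ (3 ^ k + (k : ℝ) * 29) * (M : ℝ) ^ (-(κ / (3 * k + 4))) := by positivity
  -- the proportion as a probability
  set x : ℕ → ℝ := fun m => ((g * 9 ^ m : ℕ) : ℝ) / ((6 : ℕ) : ℝ) ^ (s + J) with hx
  have hP := unif_prob (s := range M) ⟨0, mem_range.2 (by omega)⟩ x
  classical
  have e1 : (((range M).filter (fun m => ∀ r, g * 9 ^ m / 6 ^ s / 6 ^ (J - (n r + w r)) %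
      6 ^ (w r) = c r)).card : ℝ) / (range M).card = (unif (range M) x).real (WE 6 n w c) := by
    rw [real_unif _ _ (measurableSet_WE _ _ _ _)]
    congr 2
    congr 1
    refine filter_congr fun m _ => ?_
    unfold WE
    simp only [Set.mem_ofPred_eq]
    refine forall_congr' fun r => ?_
    have h1 : n r + w r ≤ s + J := by have := hn r; omega
    have h2 := wd_smear (b := 6) (by norm_num) h1 (g * 9 ^ m) (θ := 0) (by simp)
    rw [add_zero] at h2
    have h3 : s + J - (n r + w r) = s + (J - (n r + w r)) := by have := hn r; omega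
    rw [hx]
    simp only
    rw [h2, h3, pow_add, Nat.div_div_eq_div_mul]
  rw [e1]
  by_cases hc : ∀ i, c i < 6 ^ w i
  · rw [WE_eq (by norm_num)]
    have key := Pool.Agent.N586.RT.events_test (b := 6) (by norm_num) (τ := κ * log M)
      (by positivity) (unif (range M) x) n
      (fun h hh hne => by
        have := hM0 M (le_of_max_le_left hM) g s J hl h3 hs hsJ n h
          (fun i => by have := hn i; omega) hh (by exact_mod_cast hne)
        rw [hx]
        push_cast at this ⊢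
        exact this)
      (fun i => (c i : ℝ) / ((6 : ℕ) : ℝ) ^ (w i)) (fun i => ((c i : ℝ) + 1) / ((6 : ℕ) : ℝ) ^ (w i))
      (fun i => by positivity) (fun i => by
        rw [div_le_one (by positivity)]
        exact_mod_cast hc i)
    refine key.trans (le_of_eq ?_)
    congr 1
    rw [Real.rpow_def_of_pos hMp]
    congr 1
    ring
  · push Not at hc
    obtain ⟨i, hi⟩ := hc
    have e2 : WE 6 n w c = ∅ := by
      ext y
      simp only [Set.mem_empty_iff_false, iff_false]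
      intro hy
      have h1 := hy i
      have h2 := wd_lt (b := 6) (by norm_num) (w i) (n i) y
      omega
    rw [e2]
    simp only [measureReal_empty, sub_self, abs_zero]
    exact hpos

/-- **the digits in base six of `g 9 ^ n`** -/
theorem tg_S6 (U : ℕ) {δ : ℝ} (hδ : 0 < δ) (C : ℝ) {A : ℝ} (hA : 0 < A) :
    TG 6 (fun M => A * log M) (S6 U δ C) := by
  refine tg_of_words (by norm_num) hA (by linarith : A < A + 1) (S6_prob U δ C) fun k => ?_
  obtain ⟨ρ, hρ, C', M0, h⟩ := six_words U hδ C k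
  refine ⟨ρ, hρ, C', ?_⟩
  filter_upwards [eventually_ge_atTop M0] with M hM P hP n w c _
  obtain ⟨g, s, J, hl, h3, hs, hsJ, rfl⟩ := hP
  exact tw_smear (by norm_num) (range M) (fun n => g * 9 ^ n / 6 ^ s) J
    (fun n w c hn => h M hM g s J hl h3 hs hsJ n w c hn) n w c

end Pool.Agent.N639.FI
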