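import Mathlib

/-!
# Project FI: the power of two dividing a sum of few powers of six with small coefficients
-/

set_option autoImplicit false

namespace Pool.Agent.N639.FI

open Finset Real

/-- the bound for the power of two, for sums over at most `k` places -/
def PV (k : ℕ) : Prop :=
  ∀ ε : ℝ, 0 < ε → ∃ κ : ℝ, 0 < κ ∧ ∃ T0 : ℝ, ∀ T : ℝ, T0 ≤ T → ∀ s : Finset ℕ, s.card ≤ k →
    ∀ c : ℕ → ℤ, (∀ a ∈ s, |(c a : ℝ)| ≤ exp (κ * T)) → ∀ X : ℕ, (∀ a ∈ s, a ≤ X) →
      ∑ a ∈ s, c a * 6 ^ a ≠ 0 → ∀ v : ℕ, (2 : ℤ) ^ v ∣ ∑ a ∈ s, c a * 6 ^ a →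
        (v : ℝ) ≤ X + ε * T

lemma two_dvd_six (m : ℕ) (c : ℤ) : (2 : ℤ) ^ m ∣ c * 6 ^ m := by
  have : (6 : ℤ) ^ m = 2 ^ m * 3 ^ m := by rw [← mul_pow]; norm_num
  rw [this]
  exact ⟨c * 3 ^ m, by ring⟩

/-- one term -/
lemma one_term {m v : ℕ} {c : ℤ} (hc : c ≠ 0) (h : (2 : ℤ) ^ v ∣ c * 6 ^ m) {B : ℝ}
    (hB : |(c : ℝ)| ≤ exp B) (hB0 : 0 ≤ B) : (v : ℝ) ≤ m + 2 * B := by
  by_cases hvm : v ≤ m
  · have : (v : ℝ) ≤ m := by exact_mod_cast hvm
    linarith
  · push Not at hvm
    obtain ⟨u, rfl⟩ : ∃ u, v = m + u := ⟨v - m, by omega⟩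
    have h6 : (6 : ℤ) ^ m = 2 ^ m * 3 ^ m := by rw [← mul_pow]; norm_num
    have h1 : (2 : ℤ) ^ u ∣ c * 3 ^ m := by
      rw [pow_add, h6] at h
      have h2 : (2 : ℤ) ^ m * 2 ^ u ∣ 2 ^ m * (c * 3 ^ m) := by
        have e : c * (2 ^ m * 3 ^ m) = 2 ^ m * (c * 3 ^ m) := by ring
        rwa [e] at h
      exact (mul_dvd_mul_iff_left (by positivity)).1 h2
    have h3 : IsCoprime ((2 : ℤ) ^ u) (3 ^ m) := by
      apply IsCoprime.pow
      norm_num
    have h4 : (2 : ℤ) ^ u ∣ c := h3.dvd_of_dvd_mul_right h1
    have h5 : (2 : ℤ) ^ u ≤ |c| := Int.le_of_dvd (abs_pos.2 hc) ((dvd_abs _ _).2 h4)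
    have h6 : (2 : ℝ) ^ u ≤ |(c : ℝ)| := by exact_mod_cast h5
    have h7 : (u : ℝ) * log 2 ≤ B := by
      have h8 := Real.log_le_log (by positivity) (h6.trans hB)
      rwa [Real.log_pow, Real.log_exp] at h8
    have h9 := Real.log_two_gt_d9
    have h10 : (u : ℝ) * (1 / 2) ≤ u * log 2 := by
      apply mul_le_mul_of_nonneg_left _ (Nat.cast_nonneg u)
      linarith
    push_cast
    linarith

theorem pv (k : ℕ) : PV k := by
  induction k with
  | zero =>
    intro ε hε
    refine ⟨1, one_pos, 0, fun T hT s hs c hc X hX hne v hv => ?_⟩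
    exfalso
    apply hne
    have : s = ∅ := card_eq_zero.1 (Nat.le_zero.1 hs)
    rw [this, sum_empty]
  | succ k ih =>
    intro ε hε
    obtain ⟨κa, hκa, Ta, hTa⟩ := ih ε hε
    set ε1 : ℝ := min ε (κa / 8) with hε1
    have hε10 : 0 < ε1 := lt_min hε (by positivity)
    have hε1a : ε1 ≤ ε := min_le_left _ _
    have hε1b : ε1 ≤ κa / 8 := min_le_right _ _
    obtain ⟨κb, hκb, Tb, hTb⟩ := ih ε1 hε10
    set κ : ℝ := min (min (κa / 4) κb) (ε / 2) with hκ
    have hκ0 : 0 < κ := lt_min (lt_min (by positivity) hκb) (by positivity)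
    have hκ1 : κ ≤ κa / 4 := (min_le_left _ _).trans (min_le_left _ _)
    have hκ2 : κ ≤ κb := (min_le_left _ _).trans (min_le_right _ _)
    have hκ3 : κ ≤ ε / 2 := min_le_right _ _
    refine ⟨κ, hκ0, max (max Ta Tb) (4 / κa), fun T hT s hs c hc X hX hne v hv => ?_⟩
    have hT1 : Ta ≤ T := le_trans ((le_max_left _ _).trans (le_max_left _ _)) hT
    have hT2 : Tb ≤ T := le_trans ((le_max_right _ _).trans (le_max_left _ _)) hT
    have hT3 : 4 / κa ≤ T := le_trans (le_max_right _ _) hT
    have hT0 : 0 < T := lt_of_lt_of_le (by positivity) hT3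
    have hT4 : 4 ≤ κa * T := by
      rw [div_le_iff₀ hκa] at hT3
      linarith
    -- the set is not empty
    have hsne : s.Nonempty := by
      rw [nonempty_iff_ne_empty]
      rintro rfl
      exact hne (sum_empty)
    set m : ℕ := s.max' hsne with hm
    have hms : m ∈ s := max'_mem s hsne
    have hmX : m ≤ X := hX m hms
    have hmXR : (m : ℝ) ≤ X := by exact_mod_cast hmX
    have hsum : ∑ a ∈ s, c a * 6 ^ a = c m * 6 ^ m + ∑ a ∈ s.erase m, c a * 6 ^ a :=
      (add_sum_erase s (fun a => c a * 6 ^ a) hms).symm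
    have hcard : (s.erase m).card ≤ k := by
      rw [card_erase_of_mem hms]
      omega
    rw [hsum] at hne hv
    by_cases h0 : ∑ a ∈ s.erase m, c a * 6 ^ a = 0
    · rw [h0, add_zero] at hne hv
      have h1 : c m ≠ 0 := by
        rintro h
        rw [h, zero_mul] at hne
        exact hne rfl
      have h2 := one_term h1 hv (hc m hms) (by positivity)
      have h3 : 2 * (κ * T) ≤ ε * T := by
        have := mul_le_mul_of_nonneg_right hκ3 hT0.le
        linarith
      linarith
    · have hne' : (s.erase m).Nonempty := by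
        rw [nonempty_iff_ne_empty]
        intro h
        apply h0
        rw [h, sum_empty]
      set m' : ℕ := (s.erase m).max' hne' with hm'
      have hm's : m' ∈ s.erase m := max'_mem _ hne'
      have hm's' : m' ∈ s := mem_of_mem_erase hm's
      have hmm : m' ≤ m := le_max' s m' hm's'
      have hm'X : (m' : ℝ) ≤ X := by exact_mod_cast hX m' hm's'
      have hle : ∀ a ∈ s.erase m, a ≤ m' := fun a ha => le_max' _ a ha
      by_cases hgap : (m : ℝ) ≤ m' + ε1 * T
      · -- the two highest terms are merged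
        obtain ⟨g, hg⟩ : ∃ g, m = m' + g := ⟨m - m', by omega⟩
        have hgR : (g : ℝ) ≤ ε1 * T := by
          rw [hg] at hgap
          push_cast at hgap
          linarith
        set c' : ℕ → ℤ := fun a => if a = m' then c m' + c m * 6 ^ g else c a with hc'
        have hsum' : c m * 6 ^ m + ∑ a ∈ s.erase m, c a * 6 ^ a =
            ∑ a ∈ s.erase m, c' a * 6 ^ a := by
          rw [← add_sum_erase _ _ hm's, ← add_sum_erase _ (fun a => c' a * 6 ^ a) hm's]
          have h1 : ∑ a ∈ (s.erase m).erase m', c' a * 6 ^ a =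
              ∑ a ∈ (s.erase m).erase m', c a * 6 ^ a := by
            refine sum_congr rfl fun a ha => ?_
            rw [hc']
            simp only
            rw [if_neg (ne_of_mem_erase ha)]
          rw [h1, hc']
          simp only [if_true]
          rw [hg, pow_add]
          ring
        rw [hsum'] at hne hv
        refine (hTa T hT1 (s.erase m) hcard c' (fun a ha => ?_) m' hle hne v hv).trans
          (by linarith)
        rw [hc']
        simp only
        have hexp : exp (κ * T) ≤ exp (κa * T / 4) := by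
          apply exp_le_exp.2
          have := mul_le_mul_of_nonneg_right hκ1 hT0.le
          linarith
        split_ifs with h
        · have h1 := hc m' hm's'
          have h2 := hc m hms
          have h3 : (6 : ℝ) ^ g ≤ exp (κa * T / 4) := by
            have e : (6 : ℝ) ^ g = exp (g * log 6) := by
              rw [mul_comm, Real.exp_mul, Real.exp_log (by norm_num), Real.rpow_natCast]
            rw [e]
            apply exp_le_exp.2
            have h6 : log (6 : ℝ) ≤ 2 := by
              rw [Real.log_le_iff_le_exp (by norm_num)]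
              have := Real.exp_one_gt_d9
              have h7 : exp (2 : ℝ) = exp 1 * exp 1 := by rw [← Real.exp_add]; norm_num
              rw [h7]
              nlinarith
            have h8 : (0 : ℝ) ≤ log 6 := Real.log_nonneg (by norm_num)
            have h9 : (g : ℝ) ≤ κa / 8 * T := hgR.trans (mul_le_mul_of_nonneg_right hε1b hT0.le)
            have h10 : (0 : ℝ) ≤ g := Nat.cast_nonneg g
            nlinarith
          have h4 : (1 : ℝ) ≤ exp (κa * T / 4) := Real.one_le_exp (by positivity)
          push_cast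
          calc |(c m' : ℝ) + c m * 6 ^ g| ≤ |(c m' : ℝ)| + |(c m : ℝ) * 6 ^ g| := abs_add_le _ _
            _ = |(c m' : ℝ)| + |(c m : ℝ)| * 6 ^ g := by
                rw [abs_mul, abs_of_nonneg (by positivity : (0 : ℝ) ≤ 6 ^ g)]
            _ ≤ exp (κa * T / 4) + exp (κa * T / 4) * exp (κa * T / 4) := by
                gcongr
                · exact h1.trans hexp
                · exact h2.trans hexp
            _ ≤ exp (κa * T / 4) * exp (κa * T / 4) + exp (κa * T / 4) * exp (κa * T / 4) := by
                gcongr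
                exact le_mul_of_one_le_left (by positivity) h4
            _ = 2 * exp (κa * T / 2) := by
                rw [← Real.exp_add]
                have : κa * T / 4 + κa * T / 4 = κa * T / 2 := by ring
                rw [this]
                ring
            _ ≤ exp 1 * exp (κa * T / 2) := by
                gcongr
                have := Real.exp_one_gt_d9
                linarith
            _ ≤ exp (κa * T) := by
                rw [← Real.exp_add]
                apply exp_le_exp.2
                linarith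
        · refine (hc a (mem_of_mem_erase ha)).trans (hexp.trans (exp_le_exp.2 ?_))
          linarith
      · -- the highest term is far
        push Not at hgap
        by_contra hcon
        push Not at hcon
        have hvm : m ≤ v := by
          have : (m : ℝ) < v := by
            have : 0 < ε * T := by positivity
            linarith
          exact_mod_cast this.le
        have h1 : (2 : ℤ) ^ m ∣ ∑ a ∈ s.erase m, c a * 6 ^ a := by
          have h2 : (2 : ℤ) ^ m ∣ c m * 6 ^ m + ∑ a ∈ s.erase m, c a * 6 ^ a :=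
            (pow_dvd_pow _ hvm).trans hv
          exact (dvd_add_right (two_dvd_six m (c m))).1 h2
        have h2 := hTb T hT2 (s.erase m) hcard c (fun a ha =>
          (hc a (mem_of_mem_erase ha)).trans (exp_le_exp.2
            (mul_le_mul_of_nonneg_right hκ2 hT0.le))) m' hle h0 m h1
        linarith

/-- the version for sums over a finite index set -/
theorem val_six (k : ℕ) {ε : ℝ} (hε : 0 < ε) : ∃ κ : ℝ, 0 < κ ∧ ∃ T0 : ℝ, ∀ T : ℝ, T0 ≤ T →
    ∀ (n : Fin k → ℕ) (h : Fin k → ℤ), (∀ i, |(h i : ℝ)| ≤ exp (κ * T)) → ∀ X : ℕ,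
      (∀ i, n i ≤ X) → ∑ i, h i * (6 : ℤ) ^ n i ≠ 0 → ∀ v : ℕ,
        (2 : ℤ) ^ v ∣ ∑ i, h i * (6 : ℤ) ^ n i → (v : ℝ) ≤ X + ε * T := by
  classical
  obtain ⟨κ, hκ, T0, hT0⟩ := pv k ε hε
  refine ⟨κ / 2, by positivity, max T0 (2 * k / κ), fun T hT n h hh X hn hne v hv => ?_⟩
  have hT1 : T0 ≤ T := le_trans (le_max_left _ _) hT
  have hT2 : 2 * k / κ ≤ T := le_trans (le_max_right _ _) hT
  rw [div_le_iff₀ hκ] at hT2
  set s : Finset ℕ := univ.image n with hs
  set c : ℕ → ℤ := fun a => ∑ i ∈ univ.filter (fun i => n i = a), h i with hc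
  have hsum : ∑ i, h i * (6 : ℤ) ^ n i = ∑ a ∈ s, c a * 6 ^ a := by
    rw [← sum_fiberwise_of_maps_to (s := univ) (t := s) (g := n)
      (fun i hi => mem_image_of_mem n hi)]
    refine sum_congr rfl fun a _ => ?_
    rw [hc]
    simp only
    rw [sum_mul]
    refine sum_congr rfl fun i hi => ?_
    rw [(mem_filter.1 hi).2]
  rw [hsum] at hne hv
  refine hT0 T hT1 s (card_image_le.trans (by simp)) c (fun a _ => ?_) X (fun a ha => ?_) hne v hv
  · rw [hc]
    push_cast
    calc |∑ i ∈ univ.filter (fun i => n i = a), (h i : ℝ)|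
        ≤ ∑ i ∈ univ.filter (fun i => n i = a), |(h i : ℝ)| := abs_sum_le_sum_abs _ _
      _ ≤ ∑ i, |(h i : ℝ)| := sum_le_sum_of_subset_of_nonneg (filter_subset _ _)
          fun _ _ _ => abs_nonneg _
      _ ≤ ∑ _i : Fin k, exp (κ / 2 * T) := sum_le_sum fun i _ => hh i
      _ = k * exp (κ / 2 * T) := by
          rw [sum_const, card_univ, Fintype.card_fin, nsmul_eq_mul]
      _ ≤ exp (κ / 2 * T) * exp (κ / 2 * T) := by
          gcongr
          have := Real.add_one_le_exp (κ / 2 * T)
          linarith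
      _ = exp (κ * T) := by
          rw [← Real.exp_add]
          congr 1
          ring
  · rw [hs, mem_image] at ha
    obtain ⟨i, _, rfl⟩ := ha
    exact hn i

end Pool.Agent.N639.FI
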